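import Mathlib

/-!
# Functions on boxes `[0, T)^k` which are periodic (helper69, for helper81's project HL)

Chinese remainder theorem for the sums over boxes, and equidistribution in residue classes with an explicit error.
-/

set_option autoImplicit false

namespace Pool.Agent.J4H69.HL

open Finset

/-- the box `[0, T)^k` -/
abbrev box (k T : ℕ) : Finset (Fin k → ℕ) := Fintype.piFinset (fun _ : Fin k => range T)

/-- periodicity modulo `q` -/
def Per {k : ℕ} (q : ℕ) (f : (Fin k → ℕ) → ℝ) : Prop := ∀ t, f (fun i => t i % q) = f t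

lemma Per.dvd {k q Q : ℕ} {f : (Fin k → ℕ) → ℝ} (h : Per q f) (hd : q ∣ Q) : Per Q f := by
  intro t
  rw [← h (fun i => t i % Q), ← h t]
  congr 1
  funext i
  exact Nat.mod_mod_of_dvd _ hd

lemma Per.mul {k q : ℕ} {f g : (Fin k → ℕ) → ℝ} (hf : Per q f) (hg : Per q g) : Per q (fun t => f t * g t) := by
  intro t
  simp only
  rw [hf t, hg t]

lemma mem_box {k T : ℕ} {t : Fin k → ℕ} : t ∈ box k T ↔ ∀ i, t i < T := by
  simp [box, Fintype.mem_piFinset]

lemma card_box (k T : ℕ) : (box k T).card = T ^ k := by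
  simp [box]

lemma box_mono {k S T : ℕ} (h : S ≤ T) : box k S ⊆ box k T := by
  intro t ht
  rw [mem_box] at ht ⊢
  exact fun i => lt_of_lt_of_le (ht i) h

/-- Chinese remainder theorem for the sums over boxes -/
lemma sum_crt {k m n : ℕ} (hm : m ≠ 0) (hn : n ≠ 0) (h : Nat.Coprime m n) {f g : (Fin k → ℕ) → ℝ}
    (hf : Per m f) (hg : Per n g) :
    ∑ t ∈ box k (m * n), f t * g t = (∑ t ∈ box k m, f t) * (∑ t ∈ box k n, g t) := by
  rw [sum_mul_sum, ← sum_product']
  refine sum_nbij' (fun t => (fun i => t i % m, fun i => t i % n))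
    (fun u i => (Nat.chineseRemainder h (u.1 i) (u.2 i) : ℕ)) ?_ ?_ ?_ ?_ ?_
  · intro t _
    rw [mem_product, mem_box, mem_box]
    exact ⟨fun i => Nat.mod_lt _ (Nat.pos_of_ne_zero hm), fun i => Nat.mod_lt _ (Nat.pos_of_ne_zero hn)⟩
  · intro u _
    rw [mem_box]
    exact fun i => Nat.chineseRemainder_lt_mul h _ _ hm hn
  · intro t ht
    rw [mem_box] at ht
    funext i
    have h1 : t i ≡ (Nat.chineseRemainder h (t i % m) (t i % n) : ℕ) [MOD m * n] :=
      Nat.chineseRemainder_modEq_unique h ((Nat.mod_modEq _ _).symm) ((Nat.mod_modEq _ _).symm)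
    exact (Nat.ModEq.eq_of_lt_of_lt h1 (ht i) (Nat.chineseRemainder_lt_mul h _ _ hm hn)).symm
  · rintro ⟨a, b⟩ hu
    rw [mem_product, mem_box, mem_box] at hu
    obtain ⟨ha, hb⟩ := hu
    refine Prod.ext ?_ ?_
    · funext i
      have h1 := (Nat.chineseRemainder h (a i) (b i)).2.1
      have h2 : (Nat.chineseRemainder h (a i) (b i) : ℕ) % m = a i % m := h1
      simp only
      rw [h2, Nat.mod_eq_of_lt (ha i)]
    · funext i
      have h1 := (Nat.chineseRemainder h (a i) (b i)).2.2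
      have h2 : (Nat.chineseRemainder h (a i) (b i) : ℕ) % n = b i % n := h1
      simp only
      rw [h2, Nat.mod_eq_of_lt (hb i)]
  · intro t _
    simp only
    rw [hf t, hg t]

/-- a long box is a union of `m ^ k` boxes of the length of the period -/
lemma sum_rep {k q m : ℕ} (hq : 0 < q) {f : (Fin k → ℕ) → ℝ} (hf : Per q f) :
    ∑ t ∈ box k (q * m), f t = (m : ℝ) ^ k * ∑ t ∈ box k q, f t := by
  have h1 : ∑ t ∈ box k (q * m), f t = ∑ u ∈ box k q ×ˢ box k m, f u.1 := by
    refine sum_nbij' (fun t => (fun i => t i % q, fun i => t i / q)) (fun u i => u.1 i + q * u.2 i) ?_ ?_ ?_ ?_ ?_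
    · intro t ht
      rw [mem_box] at ht
      rw [mem_product, mem_box, mem_box]
      refine ⟨fun i => Nat.mod_lt _ hq, fun i => ?_⟩
      exact Nat.div_lt_of_lt_mul (ht i)
    · intro u hu
      rw [mem_product, mem_box, mem_box] at hu
      rw [mem_box]
      intro i
      have h1 := hu.1 i
      have h2 := hu.2 i
      calc u.1 i + q * u.2 i < q + q * u.2 i := by omega
        _ = q * (u.2 i + 1) := by ring
        _ ≤ q * m := Nat.mul_le_mul_left _ h2
    · intro t _
      funext i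
      exact Nat.mod_add_div _ _
    · rintro ⟨a, b⟩ hu
      rw [mem_product, mem_box, mem_box] at hu
      refine Prod.ext ?_ ?_
      · funext i
        simp only
        rw [Nat.add_mul_mod_self_left, Nat.mod_eq_of_lt (hu.1 i)]
      · funext i
        simp only
        rw [Nat.add_mul_div_left _ _ hq, Nat.div_eq_of_lt (hu.1 i), zero_add]
    · intro t _
      exact (hf t).symm
  rw [h1, sum_product]
  simp only [sum_const, card_box, nsmul_eq_mul, Nat.cast_pow]
  rw [← mul_sum]

/-- equidistribution: the sum over a box of a periodic function, compared with the mean over the residue classes -/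
lemma equi {k q T : ℕ} (hq : 0 < q) (hT : 0 < T) {f : (Fin k → ℕ) → ℝ} (hf : Per q f) {B : ℝ} (hB : ∀ t, |f t| ≤ B) :
    |∑ t ∈ box k T, f t - (T : ℝ) ^ k * ((∑ t ∈ box k q, f t) / (q : ℝ) ^ k)| ≤
      2 * min 1 ((k : ℝ) * q / T) * B * (T : ℝ) ^ k := by
  have hB0 : 0 ≤ B := le_trans (abs_nonneg _) (hB 0)
  have hq' : (0 : ℝ) < q := by exact_mod_cast hq
  have hT' : (0 : ℝ) < T := by exact_mod_cast hT
  set m := T / q with hm
  set R := q * m with hR
  have hRT : R ≤ T := Nat.mul_div_le T q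
  have hTR : T < R + q := by
    have := Nat.lt_mul_div_succ T hq
    rw [hR, hm]
    calc T < q * (T / q + 1) := this
      _ = q * (T / q) + q := by ring
  have hRT' : (R : ℝ) ≤ T := by exact_mod_cast hRT
  have hTR' : (T : ℝ) ≤ R + q := by exact_mod_cast hTR.le
  set A := (∑ t ∈ box k q, f t) / (q : ℝ) ^ k with hA
  have hAB : |A| ≤ B := by
    rw [hA, abs_div, abs_of_pos (pow_pos hq' k), div_le_iff₀ (pow_pos hq' k)]
    refine (abs_sum_le_sum_abs _ _).trans ?_
    refine (sum_le_sum (fun t _ => hB t)).trans ?_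
    rw [sum_const, card_box, nsmul_eq_mul, Nat.cast_pow, mul_comm]
  have h1 : ∑ t ∈ box k R, f t = (R : ℝ) ^ k * A := by
    rw [hR, sum_rep hq hf, hA]
    push_cast
    rw [mul_pow]
    field_simp
  have h2 : |∑ t ∈ box k T, f t - ∑ t ∈ box k R, f t| ≤ ((T : ℝ) ^ k - (R : ℝ) ^ k) * B := by
    rw [← sum_sdiff (box_mono (k := k) hRT), add_sub_cancel_right]
    refine (abs_sum_le_sum_abs _ _).trans ?_
    refine (sum_le_sum (fun t _ => hB t)).trans ?_
    rw [sum_const, nsmul_eq_mul, card_sdiff_of_subset (box_mono (k := k) hRT), card_box, card_box,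
      Nat.cast_sub (Nat.pow_le_pow_left hRT k)]
    push_cast
    exact le_refl _
  have h3 : |(R : ℝ) ^ k * A - (T : ℝ) ^ k * A| ≤ ((T : ℝ) ^ k - (R : ℝ) ^ k) * B := by
    have hle : (R : ℝ) ^ k ≤ (T : ℝ) ^ k := pow_le_pow_left₀ (Nat.cast_nonneg _) hRT' k
    rw [← sub_mul, abs_mul, abs_sub_comm, abs_of_nonneg (sub_nonneg.2 hle)]
    exact mul_le_mul_of_nonneg_left hAB (sub_nonneg.2 hle)
  have h4 : (T : ℝ) ^ k - (R : ℝ) ^ k ≤ min 1 ((k : ℝ) * q / T) * (T : ℝ) ^ k := by
    rw [min_mul_of_nonneg _ _ (pow_nonneg hT'.le k)]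
    refine le_min ?_ ?_
    · rw [one_mul]
      have : (0 : ℝ) ≤ (R : ℝ) ^ k := by positivity
      linarith
    · have h5 : (1 : ℝ) + (k : ℝ) * (-((T - R) / T)) ≤ (1 + -(((T : ℝ) - R) / T)) ^ k := by
        refine one_add_mul_le_pow ?_ k
        have : ((T : ℝ) - R) / T ≤ 1 := by
          rw [div_le_one hT']
          have : (0 : ℝ) ≤ R := Nat.cast_nonneg _
          linarith
        linarith
      have h6 : (1 + -(((T : ℝ) - R) / T)) = R / T := by
        field_simp
        ring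
      rw [h6, div_pow] at h5
      have h7 : (1 - (k : ℝ) * (((T : ℝ) - R) / T)) * (T : ℝ) ^ k ≤ (R : ℝ) ^ k := by
        rw [le_div_iff₀ (pow_pos hT' k)] at h5
        linarith
      have h8 : (k : ℝ) * (((T : ℝ) - R) / T) ≤ (k : ℝ) * q / T := by
        rw [mul_div_assoc]
        refine mul_le_mul_of_nonneg_left ?_ (Nat.cast_nonneg _)
        exact div_le_div_of_nonneg_right (by linarith) hT'.le
      have h9 := mul_le_mul_of_nonneg_right h8 (pow_nonneg hT'.le k)
      linarith
  have h5 : |∑ t ∈ box k T, f t - (T : ℝ) ^ k * A| ≤ 2 * (((T : ℝ) ^ k - (R : ℝ) ^ k) * B) := by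
    have : ∑ t ∈ box k T, f t - (T : ℝ) ^ k * A =
        (∑ t ∈ box k T, f t - ∑ t ∈ box k R, f t) + ((R : ℝ) ^ k * A - (T : ℝ) ^ k * A) := by
      rw [h1]; ring
    rw [this]
    refine (abs_add_le _ _).trans ?_
    linarith
  refine h5.trans ?_
  have := mul_le_mul_of_nonneg_right h4 hB0
  nlinarith

/-- the product of periodic functions over a set of primes -/
lemma Per.prod {k : ℕ} {S : Finset ℕ} {Y : ℕ → (Fin k → ℕ) → ℝ} (hY : ∀ p ∈ S, Per p (Y p)) :
    Per (∏ p ∈ S, p) (fun t => ∏ p ∈ S, Y p t) := by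
  intro t
  refine prod_congr rfl fun p hp => ?_
  exact (hY p hp).dvd (dvd_prod_of_mem _ hp) t

lemma sum_prod {k : ℕ} (S : Finset ℕ) {Y : ℕ → (Fin k → ℕ) → ℝ} (hS : ∀ p ∈ S, p.Prime) (hY : ∀ p ∈ S, Per p (Y p)) :
    ∑ t ∈ box k (∏ p ∈ S, p), ∏ p ∈ S, Y p t = ∏ p ∈ S, ∑ t ∈ box k p, Y p t := by
  induction S using Finset.induction_on with
  | empty => simp
  | insert p S hp ih =>
    rw [prod_insert hp, prod_insert hp]
    have hS' : ∀ r ∈ S, r.Prime := fun r hr => hS r (mem_insert_of_mem hr)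
    have hY' : ∀ r ∈ S, Per r (Y r) := fun r hr => hY r (mem_insert_of_mem hr)
    rw [← ih hS' hY']
    have hcop : Nat.Coprime p (∏ r ∈ S, r) := by
      refine Nat.Coprime.prod_right fun r hr => ?_
      rw [Nat.coprime_primes (hS p (mem_insert_self _ _)) (hS' r hr)]
      rintro rfl
      exact hp hr
    have hne : ∏ r ∈ S, r ≠ 0 := prod_ne_zero_iff.2 fun r hr => (hS' r hr).ne_zero
    rw [← sum_crt (hS p (mem_insert_self _ _)).ne_zero hne hcop (hY p (mem_insert_self _ _)) (Per.prod hY')]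
    refine sum_congr rfl fun t _ => ?_
    rw [prod_insert hp]

end Pool.Agent.J4H69.HL
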