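import Pool.Agent.J4H69.HL.Box
import Pool.Agent.J4H81.HL.Stm

/-!
# The first and the second moment of the factor of the singular series at a prime (helper69, for helper81's project HL)
-/

set_option autoImplicit false

namespace Pool.Agent.J4H69.HL

open Finset Pool.Agent.J4H81.HL

lemma nuV_le {k : ℕ} (a : Fin k → ℕ) (p : ℕ) : nuV a p ≤ k := by
  unfold nuV
  exact card_image_le.trans (by simp)

lemma nuV_mod {k : ℕ} (a b : Fin k → ℕ) (p : ℕ) (h : ∀ i, a i % p = b i % p) : nuV a p = nuV b p := by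
  unfold nuV
  congr 1
  exact image_congr fun i _ => h i

lemma XX_mod {k : ℕ} (a b : Fin k → ℕ) (p : ℕ) (h : ∀ i, a i % p = b i % p) : XX a p = XX b p := by
  unfold XX
  rw [nuV_mod a b p h]

/-- the function `1` off the class `c` -/
noncomputable def off (c d : ℕ) : ℝ := if d ≠ c then 1 else 0

lemma sub_nuV {k : ℕ} (a : Fin k → ℕ) {p : ℕ} (hp : 0 < p) :
    (p : ℝ) - nuV a p = ∑ c ∈ range p, ∏ i : Fin k, off c (a i % p) := by
  unfold off
  have h1 : ∀ c, ∏ i : Fin k, (if a i % p ≠ c then (1 : ℝ) else 0) =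
      if (∀ i, a i % p ≠ c) then (1 : ℝ) else 0 := by
    intro c
    rw [Fintype.prod_boole]
    congr
  simp only [h1]
  rw [sum_boole]
  have h2 : (range p).filter (fun c => ∀ i, a i % p ≠ c) = range p \ (univ.image fun i => a i % p) := by
    ext c
    simp only [mem_filter, mem_sdiff, mem_image, mem_univ, true_and, not_exists]
  have h3 : (univ.image fun i => a i % p) ⊆ range p := by
    intro c hc
    rw [mem_image] at hc
    obtain ⟨i, _, rfl⟩ := hc
    exact mem_range.2 (Nat.mod_lt _ hp)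
  rw [h2, card_sdiff_of_subset h3, card_range, Nat.cast_sub (by simpa using card_le_card h3)]
  rfl

lemma sum_shift {p W : ℕ} (hp : p.Prime) (hW : ¬ p ∣ W) (h : ℕ) (g : ℕ → ℝ) :
    ∑ s ∈ range p, g ((h + W * s) % p) = ∑ c ∈ range p, g c := by
  have hinj : Set.InjOn (fun s => (h + W * s) % p) (range p : Set ℕ) := by
    intro s hs s' hs' he
    rw [coe_range, Set.mem_Iio] at hs hs'
    have h1 : h + W * s ≡ h + W * s' [MOD p] := he
    have h2 : W * s ≡ W * s' [MOD p] := Nat.ModEq.add_left_cancel' h h1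
    have h3 : s ≡ s' [MOD p] := Nat.ModEq.cancel_left_of_coprime ((Nat.Prime.coprime_iff_not_dvd hp).2 hW) h2
    exact Nat.ModEq.eq_of_lt_of_lt h3 hs hs'
  have himg : (range p).image (fun s => (h + W * s) % p) = range p := by
    refine eq_of_subset_of_card_le ?_ ?_
    · intro c hc
      rw [mem_image] at hc
      obtain ⟨s, _, rfl⟩ := hc
      exact mem_range.2 (Nat.mod_lt _ hp.pos)
    · rw [card_image_of_injOn hinj]
  calc ∑ s ∈ range p, g ((h + W * s) % p) = ∑ c ∈ (range p).image (fun s => (h + W * s) % p), g c :=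
        (sum_image (f := g) hinj).symm
    _ = _ := by rw [himg]

lemma sum_off {p c : ℕ} (hc : c ∈ range p) : ∑ d ∈ range p, off c d = (p : ℝ) - 1 := by
  unfold off
  rw [sum_boole]
  have : (range p).filter (fun d => d ≠ c) = (range p).erase c := by
    ext d; simp [and_comm]
  rw [this, card_erase_of_mem hc, card_range, Nat.cast_sub, Nat.cast_one]
  have := mem_range.1 hc
  omega

lemma sum_off_off {p c c' : ℕ} (hc : c ∈ range p) (hc' : c' ∈ range p) (hne : c ≠ c') :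
    ∑ d ∈ range p, off c d * off c' d = (p : ℝ) - 2 := by
  have h1 : ∀ d, off c d * off c' d = if (d ≠ c ∧ d ≠ c') then (1 : ℝ) else 0 := by
    intro d
    unfold off
    by_cases h1 : d ≠ c <;> by_cases h2 : d ≠ c' <;> simp [h1, h2]
  simp only [h1]
  rw [sum_boole]
  have : (range p).filter (fun d => d ≠ c ∧ d ≠ c') = ((range p).erase c).erase c' := by
    ext d; simp [and_comm, and_assoc, and_left_comm]
  rw [this, card_erase_of_mem (mem_erase.2 ⟨hne.symm, hc'⟩), card_erase_of_mem hc, card_range]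
  have h2 := mem_range.1 hc
  have h3 := mem_range.1 hc'
  have h4 : p - 1 - 1 = p - 2 := by omega
  rw [h4, Nat.cast_sub (by omega)]
  norm_num

lemma off_sq (c d : ℕ) : off c d * off c d = off c d := by
  unfold off
  split_ifs <;> simp

variable {k : ℕ}

/-- first moment of the number of classes which are not hit -/
lemma mom1 {p W : ℕ} (hp : p.Prime) (hW : ¬ p ∣ W) (h : Fin k → ℕ) :
    ∑ t ∈ box k p, ((p : ℝ) - nuV (fun i => h i + W * t i) p) = p * ((p : ℝ) - 1) ^ k := by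
  simp only [sub_nuV _ hp.pos]
  rw [sum_comm]
  have h1 : ∀ c ∈ range p, ∑ t ∈ box k p, ∏ i : Fin k, off c ((h i + W * t i) % p) = ((p : ℝ) - 1) ^ k := by
    intro c hc
    rw [sum_prod_piFinset (range p) (fun i s => off c ((h i + W * s) % p))]
    have : ∀ i, ∑ s ∈ range p, off c ((h i + W * s) % p) = (p : ℝ) - 1 := by
      intro i
      rw [sum_shift hp hW (h i) (off c), sum_off hc]
    simp [this]
  rw [sum_congr rfl h1]
  simp

/-- second moment of the number of classes which are not hit -/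
lemma mom2 {p W : ℕ} (hp : p.Prime) (hW : ¬ p ∣ W) (h : Fin k → ℕ) :
    ∑ t ∈ box k p, ((p : ℝ) - nuV (fun i => h i + W * t i) p) ^ 2 =
      p * ((p : ℝ) - 1) ^ k + p * ((p : ℝ) - 1) * ((p : ℝ) - 2) ^ k := by
  have h0 : ∀ t : Fin k → ℕ, ((p : ℝ) - nuV (fun i => h i + W * t i) p) ^ 2 =
      ∑ c ∈ range p, ∑ c' ∈ range p, ∏ i : Fin k, (off c ((h i + W * t i) % p) * off c' ((h i + W * t i) % p)) := by
    intro t
    rw [sub_nuV _ hp.pos, sq, sum_mul_sum]
    simp only [prod_mul_distrib]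
  simp only [h0]
  rw [sum_comm]
  have h1 : ∀ c ∈ range p, ∑ t ∈ box k p, ∑ c' ∈ range p,
      ∏ i : Fin k, (off c ((h i + W * t i) % p) * off c' ((h i + W * t i) % p)) =
      ((p : ℝ) - 1) ^ k + ((p : ℝ) - 1) * ((p : ℝ) - 2) ^ k := by
    intro c hc
    rw [sum_comm]
    have h2 : ∀ c' ∈ range p, ∑ t ∈ box k p,
        ∏ i : Fin k, (off c ((h i + W * t i) % p) * off c' ((h i + W * t i) % p)) =
        if c' = c then ((p : ℝ) - 1) ^ k else ((p : ℝ) - 2) ^ k := by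
      intro c' hc'
      rw [sum_prod_piFinset (range p) (fun i s => off c ((h i + W * s) % p) * off c' ((h i + W * s) % p))]
      split_ifs with he
      · subst he
        have : ∀ i, ∑ s ∈ range p, off c' ((h i + W * s) % p) * off c' ((h i + W * s) % p) = (p : ℝ) - 1 := by
          intro i
          rw [sum_shift hp hW (h i) (fun d => off c' d * off c' d)]
          simp only [off_sq]
          exact sum_off hc'
        simp [this]
      · have : ∀ i, ∑ s ∈ range p, off c ((h i + W * s) % p) * off c' ((h i + W * s) % p) = (p : ℝ) - 2 := by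
          intro i
          rw [sum_shift hp hW (h i) (fun d => off c d * off c' d)]
          exact sum_off_off hc hc' (Ne.symm he)
        simp [this]
    rw [sum_congr rfl h2, ← add_sum_erase _ _ hc]
    rw [if_pos rfl]
    congr 1
    have h3 : ∀ c' ∈ (range p).erase c, (if c' = c then ((p : ℝ) - 1) ^ k else ((p : ℝ) - 2) ^ k) =
        ((p : ℝ) - 2) ^ k := by
      intro c' hc'
      rw [if_neg (mem_erase.1 hc').1]
    rw [sum_congr rfl h3, sum_const, card_erase_of_mem hc, card_range, nsmul_eq_mul,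
      Nat.cast_sub hp.one_le, Nat.cast_one]
  rw [sum_congr rfl h1]
  simp only [sum_const, card_range, nsmul_eq_mul]
  ring

lemma XX_eq {p : ℕ} (hp : 0 < p) (a : Fin k → ℕ) :
    XX a p = ((p : ℝ) - nuV a p) * ((1 / p) / (1 - 1 / (p : ℝ)) ^ k) := by
  unfold XX
  have : (p : ℝ) ≠ 0 := by positivity
  field_simp

/-- the mean of the factor is `1` -/
lemma mean1 {p W : ℕ} (hp : p.Prime) (hW : ¬ p ∣ W) (h : Fin k → ℕ) :
    ∑ t ∈ box k p, XX (fun i => h i + W * t i) p = (p : ℝ) ^ k := by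
  simp only [XX_eq hp.pos]
  rw [← sum_mul, mom1 hp hW]
  have hp0 : (p : ℝ) ≠ 0 := by exact_mod_cast hp.ne_zero
  have hp1 : (p : ℝ) - 1 ≠ 0 := by
    have : (1 : ℝ) < p := by exact_mod_cast hp.one_lt
    linarith
  have h1 : (1 - 1 / (p : ℝ)) = ((p : ℝ) - 1) / p := by field_simp
  rw [h1, div_pow]
  have h2 : ((p : ℝ) - 1) ^ k ≠ 0 := pow_ne_zero _ hp1
  field_simp

lemma powA {x : ℝ} (hx : 0 ≤ x) (n : ℕ) (hn : (n : ℝ) * x ≤ 1 / 2) : (1 + x) ^ n ≤ 1 + n * x + 2 * (n * x) ^ 2 := by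
  have h0 : 0 ≤ (n : ℝ) * x := mul_nonneg (Nat.cast_nonneg _) hx
  have h1 : (1 + x) ^ n ≤ Real.exp (n * x) := by
    rw [Real.exp_nat_mul]
    refine pow_le_pow_left₀ (by linarith) ?_ n
    have := Real.add_one_le_exp x
    linarith
  have h2 : Real.exp (n * x) ≤ 1 / (1 - n * x) := by
    have h3 := Real.add_one_le_exp (-(n * x))
    have h4 : 0 < 1 - (n : ℝ) * x := by linarith
    rw [le_div_iff₀ h4]
    calc Real.exp (n * x) * (1 - n * x) ≤ Real.exp (n * x) * Real.exp (-(n * x)) :=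
          mul_le_mul_of_nonneg_left (by linarith) (Real.exp_pos _).le
      _ = 1 := by rw [← Real.exp_add]; simp
  refine h1.trans (h2.trans ?_)
  rw [div_le_iff₀ (by linarith)]
  nlinarith [mul_nonneg h0 h0, mul_nonneg (mul_nonneg h0 h0) (by linarith : 0 ≤ 1 / 2 - (n : ℝ) * x)]

lemma powB {y : ℝ} (hy : 0 ≤ y) (hy1 : y ≤ 1) (n : ℕ) : (1 - y) ^ n ≤ 1 - n * y + (n * y) ^ 2 := by
  have h0 : 0 ≤ (n : ℝ) * y := mul_nonneg (Nat.cast_nonneg _) hy
  have h1 : (1 : ℝ) + n * y ≤ (1 + y) ^ n := one_add_mul_le_pow (by linarith) n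
  have h2 : (1 - y) ^ n * (1 + y) ^ n ≤ 1 := by
    rw [← mul_pow]
    refine pow_le_one₀ (by nlinarith) (by nlinarith)
  have h3 : (1 - y) ^ n * (1 + n * y) ≤ 1 :=
    (mul_le_mul_of_nonneg_left h1 (pow_nonneg (by linarith) n)).trans h2
  have h4 : (1 - y) ^ n ≤ 1 / (1 + n * y) := by
    rw [le_div_iff₀ (by linarith)]
    exact h3
  refine h4.trans ?_
  rw [div_le_iff₀ (by linarith)]
  nlinarith [mul_nonneg h0 (mul_nonneg h0 h0)]

lemma powC {x : ℝ} (hx : 0 ≤ x) (n : ℕ) (hn : 2 * ((n : ℝ) + 1) * x ≤ 1) :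
    x * (1 + x) ^ n + (1 - x) * (1 - x ^ 2) ^ n ≤ 1 + 2 * ((n : ℝ) + 1) ^ 2 * x ^ 3 := by
  have hn0 : (0 : ℝ) ≤ n := Nat.cast_nonneg _
  have hx1 : x ≤ 1 / 2 := by nlinarith
  have hnx : (n : ℝ) * x ≤ 1 / 2 := by nlinarith
  have hA := powA hx n hnx
  have hB := powB (y := x ^ 2) (by positivity) (by nlinarith) n
  have h1 : x * (1 + x) ^ n ≤ x * (1 + n * x + 2 * (n * x) ^ 2) := mul_le_mul_of_nonneg_left hA hx
  have h2 : (1 - x) * (1 - x ^ 2) ^ n ≤ (1 - x) * (1 - n * x ^ 2 + (n * x ^ 2) ^ 2) :=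
    mul_le_mul_of_nonneg_left hB (by linarith)
  refine (add_le_add h1 h2).trans ?_
  have h3 : x * (1 + n * x + 2 * (n * x) ^ 2) + (1 - x) * (1 - n * x ^ 2 + (n * x ^ 2) ^ 2) =
      1 + x ^ 3 * (2 * (n : ℝ) ^ 2 + n + (n : ℝ) * (n * x)) - (n : ℝ) ^ 2 * x ^ 5 := by ring
  rw [h3]
  have h4 : 0 ≤ (n : ℝ) ^ 2 * x ^ 5 := by positivity
  have h5 : (n : ℝ) * (n * x) ≤ n * (1 / 2) := mul_le_mul_of_nonneg_left hnx hn0
  have h6 : x ^ 3 * (2 * (n : ℝ) ^ 2 + n + (n : ℝ) * (n * x)) ≤ x ^ 3 * (2 * ((n : ℝ) + 1) ^ 2) := by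
    refine mul_le_mul_of_nonneg_left ?_ (by positivity)
    nlinarith
  linarith

/-- the mean of the square of the factor -/
lemma mean2 {p W : ℕ} (hp : p.Prime) (hW : ¬ p ∣ W) (h : Fin k → ℕ) (hk : 1 ≤ k) (hkp : 2 * k < p) :
    ∑ t ∈ box k p, XX (fun i => h i + W * t i) p ^ 2 ≤ (p : ℝ) ^ k * (1 + 2 * (k : ℝ) ^ 2 / ((p : ℝ) - 1) ^ 3) := by
  obtain ⟨n, rfl⟩ : ∃ n, k = n + 1 := ⟨k - 1, by omega⟩
  simp only [XX_eq hp.pos, mul_pow]
  rw [← sum_mul, mom2 hp hW]
  have hP : (2 : ℝ) * (n + 1) ≤ (p : ℝ) - 1 := by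
    have : 2 * (n + 1) + 1 ≤ p := hkp
    have h2 : ((2 * (n + 1) + 1 : ℕ) : ℝ) ≤ p := by exact_mod_cast this
    push_cast at h2
    linarith
  have hn0 : (0 : ℝ) ≤ n := Nat.cast_nonneg _
  set P : ℝ := (p : ℝ) with hPdef
  have hP1 : 0 < P - 1 := by linarith
  have hP0 : 0 < P := by linarith
  have hC := powC (x := 1 / (P - 1)) (by positivity) n (by
    rw [mul_one_div, div_le_one hP1]; exact hP)
  have e1 : (P * (P - 1) ^ (n + 1) + P * (P - 1) * (P - 2) ^ (n + 1)) * ((1 / P) ^ 2 / ((1 - 1 / P) ^ (n + 1)) ^ 2) =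
      P ^ (n + 1) * (1 / (P - 1) * (1 + 1 / (P - 1)) ^ n + (1 - 1 / (P - 1)) * (1 - (1 / (P - 1)) ^ 2) ^ n) := by
    have h1 : (1 - 1 / P) = (P - 1) / P := by field_simp
    have h2 : 1 + 1 / (P - 1) = P / (P - 1) := by field_simp; ring
    have h3 : 1 - 1 / (P - 1) = (P - 2) / (P - 1) := by field_simp; ring
    have h4 : 1 - (1 / (P - 1)) ^ 2 = P * (P - 2) / (P - 1) ^ 2 := by field_simp; ring
    rw [h1, h2, h3, h4]
    clear_value P
    obtain ⟨Q, rfl⟩ : ∃ Q, P = Q + 1 := ⟨P - 1, by ring⟩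
    have e2 : Q + 1 - 1 = Q := by ring
    have e3 : Q + 1 - 2 = Q - 1 := by ring
    rw [e2] at hP1
    rw [e2, e3]
    simp only [div_pow, mul_pow, one_pow]
    have h5 : Q ^ n ≠ 0 := by positivity
    have h6 : (Q + 1) ^ n ≠ 0 := by positivity
    field_simp
    ring
  rw [div_pow, e1]
  refine mul_le_mul_of_nonneg_left ?_ (by positivity)
  refine hC.trans ?_
  rw [div_pow, one_pow]
  push_cast
  rw [mul_one_div]

end Pool.Agent.J4H69.HL
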