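import Pool.Agent.J4H69.HL.Loc

/-!
# Part A of helper81's project HL: second moment of the middle part of the singular series (helper69)
-/

set_option autoImplicit false

namespace Pool.Agent.J4H69.HL

open Finset Pool.Agent.J4H81.HL

variable {k : ℕ}

/-- Rankin's trick -/
lemma min_le_rpow {u σ : ℝ} (hu : 0 ≤ u) (hσ : 0 ≤ σ) (hσ1 : σ ≤ 1) : min 1 u ≤ u ^ σ := by
  rcases le_total 1 u with h | h
  · rw [min_eq_left h]
    exact Real.one_le_rpow h hσ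
  · rw [min_eq_right h]
    rcases hu.eq_or_lt with h0 | h0
    · rw [← h0]
      exact Real.rpow_nonneg le_rfl _
    · calc u = u ^ (1 : ℝ) := (Real.rpow_one u).symm
        _ ≤ u ^ σ := Real.rpow_le_rpow_of_exponent_ge h0 h hσ1

/-- expansion over the sets of primes -/
lemma expand {T : ℕ} (hT : 0 < T) (P : Finset ℕ) (hP : ∀ p ∈ P, p.Prime) {Y : ℕ → (Fin k → ℕ) → ℝ}
    (hY : ∀ p ∈ P, Per p (Y p)) {B : ℕ → ℝ} (hB : ∀ p ∈ P, ∀ t, |Y p t| ≤ B p) {σ : ℝ} (hσ : 0 ≤ σ) (hσ1 : σ ≤ 1) :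
    |∑ t ∈ box k T, ∏ p ∈ P, (1 + Y p t) - (T : ℝ) ^ k * ∏ p ∈ P, (1 + (∑ t ∈ box k p, Y p t) / (p : ℝ) ^ k)| ≤
      2 * ((k : ℝ) / T) ^ σ * (T : ℝ) ^ k * ∏ p ∈ P, (1 + (p : ℝ) ^ σ * B p) := by
  simp only [prod_one_add]
  rw [sum_comm, mul_sum, ← sum_sub_distrib, mul_sum]
  refine (abs_sum_le_sum_abs _ _).trans (sum_le_sum fun S hS => ?_)
  rw [mem_powerset] at hS
  have hS1 : ∀ p ∈ S, p.Prime := fun p hp => hP p (hS hp)
  have hS2 : ∀ p ∈ S, Per p (Y p) := fun p hp => hY p (hS hp)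
  have hT' : (0 : ℝ) < T := by exact_mod_cast hT
  set q := ∏ p ∈ S, p with hq
  have hq0 : 0 < q := prod_pos fun p hp => (hS1 p hp).pos
  have hB0 : ∀ p ∈ S, 0 ≤ B p := fun p hp => (abs_nonneg _).trans (hB p (hS hp) 0)
  have h1 := equi (k := k) (T := T) hq0 hT (Per.prod hS2) (B := ∏ p ∈ S, B p) (by
    intro t
    rw [abs_prod]
    exact prod_le_prod (fun p _ => abs_nonneg _) fun p hp => hB p (hS hp) t)
  have hsp := sum_prod (k := k) S hS1 hS2
  rw [← hq] at hsp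
  rw [hsp] at h1
  have h2 : (∏ p ∈ S, ∑ t ∈ box k p, Y p t) / (q : ℝ) ^ k = ∏ p ∈ S, (∑ t ∈ box k p, Y p t) / (p : ℝ) ^ k := by
    rw [prod_div_distrib, prod_pow, hq]
    push_cast
    rfl
  rw [h2] at h1
  refine h1.trans ?_
  have h3 : min 1 ((k : ℝ) * q / T) ≤ ((k : ℝ) / T) ^ σ * ∏ p ∈ S, (p : ℝ) ^ σ := by
    refine (min_le_rpow (by positivity) hσ hσ1).trans ?_
    have h4 : ∏ p ∈ S, (p : ℝ) ^ σ = (q : ℝ) ^ σ := by
      rw [hq]
      push_cast
      rw [← Real.finsetProd_rpow _ _ (fun p _ => Nat.cast_nonneg p)]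
    rw [h4, ← Real.mul_rpow (by positivity) (by positivity)]
    refine le_of_eq ?_
    congr 1
    ring
  have h5 : 0 ≤ (∏ p ∈ S, B p) * (T : ℝ) ^ k := mul_nonneg (prod_nonneg hB0) (by positivity)
  have h6 := mul_le_mul_of_nonneg_right h3 h5
  rw [prod_mul_distrib]
  nlinarith

lemma rpow_le_three {p z : ℕ} (_ : 1 ≤ p) (hpz : p ≤ z) (hz : 3 ≤ z) : (p : ℝ) ^ (1 / Real.log z) ≤ 3 := by
  have hz1 : (1 : ℝ) < z := by exact_mod_cast (by omega : 1 < z)
  have hlz : 0 < Real.log z := Real.log_pos hz1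
  have h1 : (p : ℝ) ^ (1 / Real.log z) ≤ (z : ℝ) ^ (1 / Real.log z) :=
    Real.rpow_le_rpow (Nat.cast_nonneg _) (by exact_mod_cast hpz) (by positivity)
  have h2 : (z : ℝ) ^ (1 / Real.log z) = Real.exp 1 := by
    rw [Real.rpow_def_of_pos (by linarith)]
    congr 1
    field_simp
  rw [h2] at h1
  have := Real.exp_one_lt_d9
  linarith

lemma sum_inv_le (P : Finset ℕ) (z : ℕ) (hP : P ⊆ Icc 1 z) : ∑ p ∈ P, (1 : ℝ) / p ≤ 1 + Real.log z := by
  have h1 : ∑ p ∈ P, (1 : ℝ) / p ≤ ∑ p ∈ Icc 1 z, (1 : ℝ) / p :=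
    sum_le_sum_of_subset_of_nonneg hP fun _ _ _ => by positivity
  have h2 := harmonic_le_one_add_log z
  rw [harmonic_eq_sum_Icc] at h2
  push_cast at h2
  simp only [one_div] at h1 ⊢
  exact h1.trans h2

/-- the size of the error -/
lemma err_le {w z T : ℕ} (hk : 1 ≤ k) (hw : 2 * k ≤ w) (hwz : w ≤ z) (hz : 3 ≤ z) (hT : 1 ≤ T)
    (hlog : 100 * (k : ℝ) * (1 + Real.log z) ^ 2 ≤ Real.log T) :
    2 * ((k : ℝ) / T) ^ (1 / Real.log z) *
      ∏ p ∈ (Ioc w z).filter Nat.Prime, (1 + (p : ℝ) ^ (1 / Real.log z) * (6 * k / p)) ≤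
      6 * Real.exp (-(Real.log T / (2 * Real.log z))) := by
  have hz1 : (1 : ℝ) < z := by exact_mod_cast (by omega : 1 < z)
  have hlz : 0 < Real.log z := Real.log_pos hz1
  have hk0 : (0 : ℝ) < k := by exact_mod_cast hk
  have hT0 : (0 : ℝ) < T := by exact_mod_cast hT
  have h1 : ∏ p ∈ (Ioc w z).filter Nat.Prime, (1 + (p : ℝ) ^ (1 / Real.log z) * (6 * k / p)) ≤
      Real.exp (18 * k * (1 + Real.log z)) := by
    have h2 : ∏ p ∈ (Ioc w z).filter Nat.Prime, (1 + (p : ℝ) ^ (1 / Real.log z) * (6 * k / p)) ≤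
        ∏ p ∈ (Ioc w z).filter Nat.Prime, Real.exp (18 * k * (1 / p)) := by
      refine prod_le_prod (fun p _ => by positivity) fun p hp => ?_
      rw [mem_filter, mem_Ioc] at hp
      have h3 := rpow_le_three (p := p) (z := z) (by omega) hp.1.2 hz
      have h4 : (p : ℝ) ^ (1 / Real.log z) * (6 * k / p) ≤ 18 * k * (1 / p) := by
        have h5 : (0 : ℝ) ≤ 6 * k / p := by positivity
        calc (p : ℝ) ^ (1 / Real.log z) * (6 * k / p) ≤ 3 * (6 * k / p) := mul_le_mul_of_nonneg_right h3 h5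
          _ = 18 * k * (1 / p) := by ring
      have h6 := Real.add_one_le_exp (18 * (k : ℝ) * (1 / p))
      linarith
    refine h2.trans ?_
    rw [← Real.exp_sum, ← mul_sum]
    refine Real.exp_le_exp.2 (mul_le_mul_of_nonneg_left ?_ (by positivity))
    refine sum_inv_le _ z ?_
    intro p hp
    rw [mem_filter, mem_Ioc] at hp
    exact mem_Icc.2 ⟨hp.2.one_le, hp.1.2⟩
  have h2 : ((k : ℝ) / T) ^ (1 / Real.log z) ≤ 3 * Real.exp (-(Real.log T / Real.log z)) := by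
    rw [Real.div_rpow hk0.le hT0.le]
    have h3 := rpow_le_three (p := k) (z := z) hk (by omega) hz
    have h4 : ((T : ℝ) ^ (1 / Real.log z))⁻¹ = Real.exp (-(Real.log T / Real.log z)) := by
      rw [Real.rpow_def_of_pos hT0, ← Real.exp_neg]
      congr 1
      ring
    rw [div_eq_mul_inv, h4]
    exact mul_le_mul_of_nonneg_right h3 (Real.exp_pos _).le
  have h3 : 2 * ((k : ℝ) / T) ^ (1 / Real.log z) *
      ∏ p ∈ (Ioc w z).filter Nat.Prime, (1 + (p : ℝ) ^ (1 / Real.log z) * (6 * k / p)) ≤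
      2 * (3 * Real.exp (-(Real.log T / Real.log z))) * Real.exp (18 * k * (1 + Real.log z)) := by
    refine mul_le_mul (mul_le_mul_of_nonneg_left h2 (by norm_num)) h1 (prod_nonneg fun p _ => by positivity)
      (by positivity)
  refine h3.trans ?_
  have h4 : 2 * (3 * Real.exp (-(Real.log T / Real.log z))) * Real.exp (18 * k * (1 + Real.log z)) =
      6 * Real.exp (-(Real.log T / Real.log z) + 18 * k * (1 + Real.log z)) := by
    rw [Real.exp_add]; ring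
  rw [h4]
  refine mul_le_mul_of_nonneg_left (Real.exp_le_exp.2 ?_) (by norm_num)
  have h5 : 50 * k * (1 + Real.log z) ≤ Real.log T / (2 * Real.log z) := by
    rw [le_div_iff₀ (by positivity)]
    refine le_trans ?_ hlog
    have : 0 ≤ (k : ℝ) * (1 + Real.log z) := by positivity
    nlinarith
  have h6 : Real.log T / Real.log z = 2 * (Real.log T / (2 * Real.log z)) := by field_simp
  rw [h6]
  have h7 : 0 ≤ (k : ℝ) * (1 + Real.log z) := by positivity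
  nlinarith

lemma XX_bounds {p : ℕ} (hk : 1 ≤ k) (hkp : 2 * k < p) (a : Fin k → ℕ) :
    0 ≤ XX a p ∧ XX a p ≤ 2 ∧ |XX a p - 1| ≤ 2 * k / p := by
  have hp0 : (0 : ℝ) < p := by exact_mod_cast (by omega : 0 < p)
  have hk0 : (0 : ℝ) < k := by exact_mod_cast hk
  have hkp' : 2 * (k : ℝ) ≤ p := by exact_mod_cast hkp.le
  have hnu : (nuV a p : ℝ) ≤ k := by exact_mod_cast nuV_le a p
  have hnu0 : (0 : ℝ) ≤ nuV a p := Nat.cast_nonneg _
  have hx : (k : ℝ) / p ≤ 1 / 2 := by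
    rw [div_le_iff₀ hp0]; linarith
  have hp1 : (1 : ℝ) / p ≤ 1 := by
    rw [div_le_one hp0]
    exact_mod_cast (by omega : 1 ≤ p)
  set D : ℝ := (1 - 1 / (p : ℝ)) ^ k with hD
  have hD1 : D ≤ 1 := pow_le_one₀ (by linarith) (by
    have : (0 : ℝ) ≤ 1 / p := by positivity
    linarith)
  have hD0 : 1 - (k : ℝ) / p ≤ D := by
    have h := one_add_mul_le_pow (a := -(1 / (p : ℝ))) (by linarith) k
    rw [hD]
    calc 1 - (k : ℝ) / p = 1 + k * (-(1 / (p : ℝ))) := by ring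
      _ ≤ (1 + -(1 / (p : ℝ))) ^ k := h
      _ = _ := by rw [sub_eq_add_neg]
  have hDp : 0 < D := by linarith
  have hnp : (nuV a p : ℝ) / p ≤ k / p := div_le_div_of_nonneg_right hnu hp0.le
  have hnp0 : (0 : ℝ) ≤ (nuV a p : ℝ) / p := by positivity
  have hX : XX a p = (1 - (nuV a p : ℝ) / p) / D := rfl
  have hup : XX a p ≤ 1 + 2 * k / p := by
    rw [hX, div_le_iff₀ hDp]
    have h1 : 0 ≤ (k : ℝ) / p := by positivity
    have h2 : (1 + 2 * ((k : ℝ) / p)) * (1 - k / p) ≤ (1 + 2 * ((k : ℝ) / p)) * D :=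
      mul_le_mul_of_nonneg_left hD0 (by positivity)
    have h3 : (1 + 2 * (k : ℝ) / p) = 1 + 2 * (k / p) := by ring
    rw [h3]
    nlinarith
  have hlo : 1 - (k : ℝ) / p ≤ XX a p := by
    rw [hX, le_div_iff₀ hDp]
    nlinarith
  have hk2 : 2 * (k : ℝ) / p = 2 * (k / p) := by ring
  refine ⟨by linarith, by rw [hk2] at hup; linarith, ?_⟩
  rw [abs_le, hk2]
  rw [hk2] at hup
  have : (0 : ℝ) ≤ (k : ℝ) / p := by positivity
  constructor <;> linarith

lemma sum_cube (w z : ℕ) (hw : 2 ≤ w) (hwz : w ≤ z) :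
    ∑ p ∈ Ioc w z, 1 / ((p : ℝ) - 1) ^ 3 ≤ 1 / 2 * (1 / ((w : ℝ) - 1) ^ 2 - 1 / ((z : ℝ) - 1) ^ 2) := by
  induction z, hwz using Nat.le_induction with
  | base => simp
  | succ z hz ih =>
    rw [sum_Ioc_succ_top (by omega)]
    push_cast
    have hz2 : (2 : ℝ) ≤ z := by exact_mod_cast (by omega : 2 ≤ z)
    have h1 : (z : ℝ) + 1 - 1 = z := by ring
    rw [h1]
    have h2 : 1 / (z : ℝ) ^ 3 ≤ 1 / 2 * (1 / ((z : ℝ) - 1) ^ 2 - 1 / (z : ℝ) ^ 2) := by
      have h3 : (0 : ℝ) < z - 1 := by linarith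
      have h4 : (0 : ℝ) < z := by linarith
      have h5 : 1 / 2 * (1 / ((z : ℝ) - 1) ^ 2 - 1 / (z : ℝ) ^ 2) - 1 / (z : ℝ) ^ 3 =
          (3 * z - 2) / (2 * z ^ 3 * (z - 1) ^ 2) := by
        field_simp
        ring
      have h6 : 0 ≤ (3 * (z : ℝ) - 2) / (2 * z ^ 3 * (z - 1) ^ 2) := by
        apply div_nonneg
        · linarith
        · positivity
      linarith
    linarith

theorem t_SING : S_SING := by
  intro k w z T W h hk hw hwz hz hT hW hlog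
  set P := (Ioc w z).filter Nat.Prime with hP
  have hPm : ∀ p ∈ P, w < p ∧ p ≤ z ∧ p.Prime := by
    intro p hp
    rw [hP, mem_filter, mem_Ioc] at hp
    exact ⟨hp.1.1, hp.1.2, hp.2⟩
  have hT0 : (0 : ℝ) < T := by exact_mod_cast hT
  have hz1 : (1 : ℝ) < z := by exact_mod_cast (by omega : 1 < z)
  have hlz : 0 < Real.log z := Real.log_pos hz1
  have hlz1 : 1 ≤ Real.log z := by
    rw [Real.le_log_iff_exp_le (by linarith)]
    have h3 : (3 : ℝ) ≤ z := by exact_mod_cast hz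
    have := Real.exp_one_lt_d9
    linarith
  set σ : ℝ := 1 / Real.log z with hσ
  have hσ0 : 0 ≤ σ := by positivity
  have hσ1 : σ ≤ 1 := by
    rw [hσ, div_le_one hlz]; exact hlz1
  set X : ℕ → (Fin k → ℕ) → ℝ := fun p t => XX (fun i => h i + W * t i) p with hX
  set ε : ℝ := 6 * Real.exp (-(Real.log T / (2 * Real.log z))) with hε
  have hper : ∀ p, Per p (X p) := by
    intro p t
    refine XX_mod _ _ p fun i => ?_
    exact (Nat.ModEq.add_left _ (Nat.ModEq.mul_left _ (Nat.mod_modEq _ _)))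
  have herr := err_le (k := k) (w := w) (z := z) (T := T) hk hw hwz hz hT hlog
  -- general step
  have step : ∀ Y : ℕ → (Fin k → ℕ) → ℝ, (∀ p ∈ P, Per p (Y p)) → (∀ p ∈ P, ∀ t, |Y p t| ≤ 6 * k / p) →
      |∑ t ∈ box k T, ∏ p ∈ P, (1 + Y p t) - (T : ℝ) ^ k * ∏ p ∈ P, (1 + (∑ t ∈ box k p, Y p t) / (p : ℝ) ^ k)| ≤
        ε * (T : ℝ) ^ k := by
    intro Y h1 h2
    refine (expand (T := T) (by omega) P (fun p hp => (hPm p hp).2.2) h1 h2 hσ0 hσ1).trans ?_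
    have h3 : (0 : ℝ) ≤ (T : ℝ) ^ k := by positivity
    calc 2 * ((k : ℝ) / T) ^ σ * (T : ℝ) ^ k * ∏ p ∈ P, (1 + (p : ℝ) ^ σ * (6 * k / p)) =
          (2 * ((k : ℝ) / T) ^ σ * ∏ p ∈ P, (1 + (p : ℝ) ^ σ * (6 * k / p))) * (T : ℝ) ^ k := by ring
      _ ≤ ε * (T : ℝ) ^ k := mul_le_mul_of_nonneg_right herr h3
  -- first moment
  have hM1 : |∑ t ∈ box k T, ∏ p ∈ P, X p t - (T : ℝ) ^ k| ≤ ε * (T : ℝ) ^ k := by
    have h1 := step (fun p t => X p t - 1) (fun p _ t => by simp only; rw [hper p t]) (fun p hp t => by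
      have h2 := (XX_bounds (k := k) (p := p) hk (by have := (hPm p hp).1; omega) (fun i => h i + W * t i)).2.2
      refine h2.trans ?_
      have h3 : (0 : ℝ) ≤ (k : ℝ) / p := by positivity
      have h4 : 2 * (k : ℝ) / p = 2 * (k / p) := by ring
      have h5 : 6 * (k : ℝ) / p = 6 * (k / p) := by ring
      rw [h4, h5]; linarith)
    have h2 : ∏ p ∈ P, (1 + (∑ t ∈ box k p, (X p t - 1)) / (p : ℝ) ^ k) = 1 := by
      refine prod_eq_one fun p hp => ?_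
      rw [sum_sub_distrib, mean1 (hPm p hp).2.2 (hW p (hPm p hp).2.2 (hPm p hp).1) h]
      simp
    rw [h2, mul_one] at h1
    simpa only [add_sub_cancel] using h1
  -- second moment
  have hM2 : ∑ t ∈ box k T, (∏ p ∈ P, X p t) ^ 2 ≤ (1 + 8 * (k : ℝ) ^ 2 / (w : ℝ) ^ 2 + ε) * (T : ℝ) ^ k := by
    have h1 := step (fun p t => X p t ^ 2 - 1) (fun p _ t => by simp only; rw [hper p t]) (fun p hp t => by
      have h2 := XX_bounds (k := k) (p := p) hk (by have := (hPm p hp).1; omega) (fun i => h i + W * t i)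
      have h3 : X p t ^ 2 - 1 = (X p t - 1) * (X p t + 1) := by ring
      have h0 : X p t = XX (fun i => h i + W * t i) p := rfl
      rw [h3, abs_mul, h0, abs_of_nonneg (by linarith [h2.1] : 0 ≤ XX (fun i => h i + W * t i) p + 1)]
      have h4 : 0 ≤ 2 * (k : ℝ) / p := by positivity
      calc |XX (fun i => h i + W * t i) p - 1| * (XX (fun i => h i + W * t i) p + 1) ≤ (2 * k / p) * 3 :=
            mul_le_mul h2.2.2 (by linarith [h2.2.1]) (by linarith [h2.1]) h4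
        _ = 6 * k / p := by ring)
    have h2 : ∏ p ∈ P, (1 + (∑ t ∈ box k p, (X p t ^ 2 - 1)) / (p : ℝ) ^ k) ≤ 1 + 8 * (k : ℝ) ^ 2 / (w : ℝ) ^ 2 := by
      have hw2 : (2 : ℝ) ≤ w := by exact_mod_cast (by omega : 2 ≤ w)
      have hkw : 2 * (k : ℝ) ≤ w := by exact_mod_cast hw
      have h3 : ∀ p ∈ P, 0 ≤ 1 + (∑ t ∈ box k p, (X p t ^ 2 - 1)) / (p : ℝ) ^ k ∧
          1 + (∑ t ∈ box k p, (X p t ^ 2 - 1)) / (p : ℝ) ^ k ≤ Real.exp (2 * (k : ℝ) ^ 2 * (1 / ((p : ℝ) - 1) ^ 3)) := by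
        intro p hp
        have hpp := (hPm p hp).2.2
        have hp0 : (0 : ℝ) < (p : ℝ) ^ k := by
          have : (0 : ℝ) < p := by exact_mod_cast hpp.pos
          positivity
        have h4 : 1 + (∑ t ∈ box k p, (X p t ^ 2 - 1)) / (p : ℝ) ^ k = (∑ t ∈ box k p, X p t ^ 2) / (p : ℝ) ^ k := by
          rw [sum_sub_distrib]
          simp only [sum_const, card_box, nsmul_eq_mul, mul_one, Nat.cast_pow]
          field_simp
          ring
        rw [h4]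
        refine ⟨div_nonneg (sum_nonneg fun t _ => sq_nonneg _) hp0.le, ?_⟩
        rw [div_le_iff₀ hp0]
        refine (mean2 hpp (hW p hpp (hPm p hp).1) h hk (by have := (hPm p hp).1; omega)).trans ?_
        rw [mul_comm]
        refine mul_le_mul_of_nonneg_right ?_ hp0.le
        have := Real.add_one_le_exp (2 * (k : ℝ) ^ 2 * (1 / ((p : ℝ) - 1) ^ 3))
        rw [mul_one_div] at this ⊢
        linarith
      refine (prod_le_prod (fun p hp => (h3 p hp).1) fun p hp => (h3 p hp).2).trans ?_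
      rw [← Real.exp_sum, ← mul_sum]
      have h5 : ∑ p ∈ P, 1 / ((p : ℝ) - 1) ^ 3 ≤ 2 / (w : ℝ) ^ 2 := by
        have h6 : ∑ p ∈ P, 1 / ((p : ℝ) - 1) ^ 3 ≤ ∑ p ∈ Ioc w z, 1 / ((p : ℝ) - 1) ^ 3 := by
          refine sum_le_sum_of_subset_of_nonneg (filter_subset _ _) fun p hp _ => ?_
          rw [mem_Ioc] at hp
          have : (1 : ℝ) ≤ p := by exact_mod_cast (by omega : 1 ≤ p)
          have : (0 : ℝ) ≤ (p : ℝ) - 1 := by linarith
          positivity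
        refine (h6.trans (sum_cube w z (by omega) hwz)).trans ?_
        have h7 : 1 / ((w : ℝ) - 1) ^ 2 ≤ 4 / (w : ℝ) ^ 2 := by
          have h8 : (0 : ℝ) < w - 1 := by linarith
          rw [div_le_div_iff₀ (by positivity) (by positivity)]
          nlinarith
        have h8 : 0 ≤ 1 / ((z : ℝ) - 1) ^ 2 := by positivity
        have h9 : 2 / (w : ℝ) ^ 2 = 1 / 2 * (4 / (w : ℝ) ^ 2) := by ring
        rw [h9]
        linarith
      have h6 : 2 * (k : ℝ) ^ 2 * ∑ p ∈ P, 1 / ((p : ℝ) - 1) ^ 3 ≤ 4 * (k : ℝ) ^ 2 / (w : ℝ) ^ 2 := by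
        calc 2 * (k : ℝ) ^ 2 * ∑ p ∈ P, 1 / ((p : ℝ) - 1) ^ 3 ≤ 2 * (k : ℝ) ^ 2 * (2 / (w : ℝ) ^ 2) :=
              mul_le_mul_of_nonneg_left h5 (by positivity)
          _ = 4 * (k : ℝ) ^ 2 / (w : ℝ) ^ 2 := by ring
      refine (Real.exp_le_exp.2 h6).trans ?_
      set v : ℝ := 4 * (k : ℝ) ^ 2 / (w : ℝ) ^ 2 with hv
      have hv0 : 0 ≤ v := by positivity
      have hv1 : v ≤ 1 := by
        rw [hv, div_le_one (by positivity)]
        nlinarith [(Nat.cast_nonneg k : (0 : ℝ) ≤ k)]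
      have h7 : 1 + 8 * (k : ℝ) ^ 2 / (w : ℝ) ^ 2 = 1 + 2 * v := by rw [hv]; ring
      rw [h7]
      have h8 := Real.abs_exp_sub_one_sub_id_le (x := v) (by rw [abs_of_nonneg hv0]; exact hv1)
      have h9 := (abs_le.1 h8).2
      nlinarith
    have h3 : (T : ℝ) ^ k * ∏ p ∈ P, (1 + (∑ t ∈ box k p, (X p t ^ 2 - 1)) / (p : ℝ) ^ k) ≤
        (T : ℝ) ^ k * (1 + 8 * (k : ℝ) ^ 2 / (w : ℝ) ^ 2) := mul_le_mul_of_nonneg_left h2 (by positivity)
    have h4 : ∑ t ∈ box k T, (∏ p ∈ P, X p t) ^ 2 = ∑ t ∈ box k T, ∏ p ∈ P, (1 + (X p t ^ 2 - 1)) := by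
      refine sum_congr rfl fun t _ => ?_
      rw [← prod_pow]
      exact prod_congr rfl fun p _ => by ring
    rw [h4]
    have h5 := (abs_le.1 h1).2
    nlinarith
  have h1 : ∑ t ∈ box k T, (∏ p ∈ P, X p t - 1) ^ 2 =
      ∑ t ∈ box k T, (∏ p ∈ P, X p t) ^ 2 - 2 * ∑ t ∈ box k T, ∏ p ∈ P, X p t + (T : ℝ) ^ k := by
    have h2 : (T : ℝ) ^ k = ∑ t ∈ box k T, (1 : ℝ) := by simp
    rw [h2, mul_sum, ← sum_sub_distrib, ← sum_add_distrib]
    exact sum_congr rfl fun t _ => by ring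
  show ∑ t ∈ box k T, (∏ p ∈ P, X p t - 1) ^ 2 ≤ _
  rw [h1]
  have h2 := (abs_le.1 hM1).1
  have h3 : 18 * Real.exp (-(Real.log T / (2 * Real.log z))) = 3 * ε := by rw [hε]; ring
  rw [h3]
  nlinarith

end Pool.Agent.J4H69.HL
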