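import Pool.Agent.J4H81.HL.Stm2
import Pool.Agent.J4H81.PT.CMb

/-!
# Part E of helper81's project HL: sums over subsets and over injective vectors (helper69)
-/

set_option autoImplicit false

namespace Pool.Agent.J4H69.HL

open Finset Pool.Agent.J4H81.HL

open Classical in
theorem t_SUB : S_SUB := by
  intro R k g
  have hmaps : ∀ a ∈ (Fintype.piFinset (fun _ : Fin k => R)).filter (fun a => Function.Injective a),
      univ.image a ∈ R.powersetCard k := by
    intro a ha
    rw [mem_filter, Fintype.mem_piFinset] at ha
    rw [mem_powersetCard]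
    refine ⟨?_, ?_⟩
    · intro x hx
      rw [mem_image] at hx
      obtain ⟨i, _, rfl⟩ := hx
      exact ha.1 i
    · rw [card_image_of_injective _ ha.2, card_univ, Fintype.card_fin]
  have key : (∑ A ∈ R.powersetCard k, g A) * (k.factorial : ℝ) =
    ∑ a ∈ (Fintype.piFinset (fun _ : Fin k => R)).filter (fun a => Function.Injective a), g (univ.image a) := by
    rw [← sum_fiberwise_of_maps_to hmaps, sum_mul]
    refine sum_congr rfl fun A hA => ?_
    have h1 : ∀ a ∈ ((Fintype.piFinset (fun _ : Fin k => R)).filter (fun a => Function.Injective a)).filter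
        (fun a => univ.image a = A), g (univ.image a) = g A := by
      intro a ha
      rw [(mem_filter.1 ha).2]
    rw [sum_congr rfl h1, sum_const, nsmul_eq_mul, mul_comm]
    congr 1
    have h2 := Pool.Agent.J4H81.PT.card_subsets R k (fun B => B = A)
    have h3 : ∀ inst : DecidablePred (fun B : Finset ℕ => B = A),
        (@Finset.filter _ (fun B => B = A) inst (R.powersetCard k)).card = 1 := by
      intro inst
      rw [card_eq_one]
      refine ⟨A, ?_⟩
      ext B
      rw [mem_filter, mem_singleton]
      exact ⟨fun h => h.2, fun h => ⟨h ▸ hA, h⟩⟩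
    rw [h3, one_mul] at h2
    rw [h2, filter_filter]
    congr
  convert key

end Pool.Agent.J4H69.HL
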