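import Pool.Agent.J4H69.HL.Loc
import Pool.Agent.J4H81.HL.Stm2

/-!
# Part D of helper81's project HL: the number of the classes modulo the primorial (helper69)
-/

set_option autoImplicit false

namespace Pool.Agent.J4H69.HL

open Finset Pool.Agent.J4H81.HL
open Pool.Agent.J4H81.PT (VV isUnit_iff_primes)

variable {k : ℕ}

/-- the classes `c` modulo `p` with all `c + a i` nonzero -/
lemma count_p {p : ℕ} (hp : p.Prime) (a : Fin k → ℕ) :
    ∑ c ∈ range p, (∏ i : Fin k, if (c + a i) % p ≠ 0 then (1 : ℝ) else 0) = (p : ℝ) - nuV a p := by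
  have hW : ¬ p ∣ p - 1 := by
    intro h
    have := Nat.le_of_dvd (by have := hp.two_le; omega) h
    have := hp.two_le
    omega
  rw [sub_nuV a hp.pos, ← sum_shift hp hW 0 (fun c => ∏ i : Fin k, off c (a i % p))]
  refine sum_congr rfl fun s _ => prod_congr rfl fun i _ => ?_
  unfold off
  have h1 : ((s + a i) % p ≠ 0) ↔ (a i % p ≠ (0 + (p - 1) * s) % p) := by
    rw [not_iff_not]
    have h2 : s + (0 + (p - 1) * s) = p * s := by
      obtain ⟨m, hm⟩ : ∃ m, p = m + 1 := ⟨p - 1, by have := hp.two_le; omega⟩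
      rw [hm, Nat.add_sub_cancel]; ring
    constructor
    · intro h
      have h3 : s + a i ≡ s + (0 + (p - 1) * s) [MOD p] := by
        show (s + a i) % p = (s + (0 + (p - 1) * s)) % p
        rw [h, h2, Nat.mul_mod_right]
      exact Nat.ModEq.add_left_cancel' s h3
    · intro h
      have h3 : s + a i ≡ s + (0 + (p - 1) * s) [MOD p] := Nat.ModEq.add_left s h
      have h4 : (s + a i) % p = (s + (0 + (p - 1) * s)) % p := h3
      rw [h4, h2, Nat.mul_mod_right]
  by_cases h : (s + a i) % p ≠ 0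
  · rw [if_pos h, if_pos (h1.1 h)]
  · rw [if_neg h, if_neg (fun h' => h (h1.2 h'))]

theorem t_VV : S_VV := by
  intro k w W _ a hW
  set P := (Icc 1 w).filter Nat.Prime with hP
  have hPp : ∀ p ∈ P, p.Prime := fun p hp => (mem_filter.1 hp).2
  have hPW : W = ∏ p ∈ P, p := by
    rw [hW, primorial]
    refine prod_congr ?_ fun _ _ => rfl
    ext p
    rw [mem_filter, mem_range, hP, mem_filter, mem_Icc]
    constructor
    · rintro ⟨h1, h2⟩
      exact ⟨⟨h2.one_le, by omega⟩, h2⟩
    · rintro ⟨⟨_, h1⟩, h2⟩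
      exact ⟨by omega, h2⟩
  have hfac : W.primeFactors = P := by
    rw [hPW]
    exact Nat.primeFactors_prod hPp
  have hW0 : 0 < W := Nat.pos_of_ne_zero (NeZero.ne W)
  -- the count
  have hcount : ((VV (fun i => ((a i : ℕ) : ZMod W))).card : ℝ) = ∏ p ∈ P, ((p : ℝ) - nuV a p) := by
    have h1 : ((VV (fun i => ((a i : ℕ) : ZMod W))).card : ℝ) =
        ∑ t ∈ box 1 W, ∏ p ∈ P, ∏ i : Fin k, (if (t 0 + a i) % p ≠ 0 then (1 : ℝ) else 0) := by
      have h2 : ∀ t : Fin 1 → ℕ, ∏ p ∈ P, ∏ i : Fin k, (if (t 0 + a i) % p ≠ 0 then (1 : ℝ) else 0) =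
          if (((t 0 : ℕ) : ZMod W) ∈ VV (fun i => ((a i : ℕ) : ZMod W))) then (1 : ℝ) else 0 := by
        intro t
        have h3 : (((t 0 : ℕ) : ZMod W) ∈ VV (fun i => ((a i : ℕ) : ZMod W))) ↔
            ∀ p ∈ P, ∀ i : Fin k, (t 0 + a i) % p ≠ 0 := by
          unfold VV
          rw [mem_filter]
          simp only [mem_univ, true_and]
          have h4 : ∀ i, IsUnit (((t 0 : ℕ) : ZMod W) + ((a i : ℕ) : ZMod W)) ↔
              ∀ p ∈ P, (t 0 + a i) % p ≠ 0 := by
            intro i
            rw [← Nat.cast_add, isUnit_iff_primes, hfac]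
            refine forall₂_congr fun p _ => ?_
            rw [Nat.dvd_iff_mod_eq_zero]
          simp only [h4]
          exact ⟨fun h p hp i => h i p hp, fun h i p hp => h p hp i⟩
        by_cases h : (((t 0 : ℕ) : ZMod W) ∈ VV (fun i => ((a i : ℕ) : ZMod W)))
        · rw [if_pos h]
          refine prod_eq_one fun p hp => prod_eq_one fun i _ => ?_
          rw [if_pos (h3.1 h p hp i)]
        · rw [if_neg h]
          rw [h3] at h
          push Not at h
          obtain ⟨p, hp, i, hi⟩ := h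
          refine prod_eq_zero hp (prod_eq_zero (mem_univ i) ?_)
          rw [if_neg (by rw [hi]; exact fun h => h rfl)]
      simp only [h2]
      rw [sum_boole]
      congr 1
      refine card_nbij' (fun c _ => c.val) (fun t => ((t 0 : ℕ) : ZMod W)) ?_ ?_ ?_ ?_
      · intro c hc
        rw [mem_coe] at hc
        simp only [coe_filter, Set.mem_ofPred_eq]
        refine ⟨mem_box.2 fun _ => ZMod.val_lt c, ?_⟩
        rw [ZMod.natCast_zmod_val]
        exact hc
      · intro t ht
        simp only [coe_filter, Set.mem_ofPred_eq] at ht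
        exact ht.2
      · intro c _
        exact ZMod.natCast_zmod_val c
      · intro t ht
        simp only [coe_filter, Set.mem_ofPred_eq] at ht
        funext j
        have hj : j = 0 := Subsingleton.elim _ _
        subst hj
        exact ZMod.val_cast_of_lt (mem_box.1 ht.1 0)
    rw [h1, hPW, sum_prod (k := 1) P (Y := fun p t => ∏ i : Fin k, (if (t 0 + a i) % p ≠ 0 then (1 : ℝ) else 0)) hPp]
    · refine prod_congr rfl fun p hp => ?_
      rw [← count_p (hPp p hp) a]
      refine sum_nbij' (fun t => t 0) (fun c _ => c) ?_ ?_ ?_ ?_ ?_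
      · intro t ht
        exact mem_range.2 (mem_box.1 ht 0)
      · intro c hc
        exact mem_box.2 fun _ => mem_range.1 hc
      · intro t _
        funext j
        have hj : j = 0 := Subsingleton.elim _ _
        rw [hj]
      · intro c _
        rfl
      · intro t _
        rfl
    · intro p _ t
      simp only
      refine prod_congr rfl fun i _ => ?_
      rw [Nat.mod_add_mod]
  have htot : (Nat.totient W : ℝ) / W = ∏ p ∈ P, (1 - 1 / (p : ℝ)) := by
    have h1 := Nat.totient_eq_mul_prod_factors W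
    have h2 : ((Nat.totient W : ℚ) : ℝ) = ((W * ∏ p ∈ W.primeFactors, (1 - (p : ℚ)⁻¹) : ℚ) : ℝ) := by rw [h1]
    push_cast at h2
    rw [hfac] at h2
    rw [h2, mul_div_assoc, mul_comm, div_mul_cancel₀ _ (by exact_mod_cast hW0.ne')]
    simp only [one_div]
  have hW' : (W : ℝ) = ∏ p ∈ P, (p : ℝ) := by
    rw [hPW]; push_cast; rfl
  have h3 : ((W : ℝ) / (Nat.totient W : ℝ)) = (∏ p ∈ P, (1 - 1 / (p : ℝ)))⁻¹ := by
    rw [← htot, inv_div]
  rw [h3, hcount]
  have h4 : (∏ p ∈ P, ((p : ℝ) - nuV a p)) / (W : ℝ) = ∏ p ∈ P, (((p : ℝ) - nuV a p) / p) := by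
    rw [hW', prod_div_distrib]
  rw [h4, inv_pow, ← prod_pow, ← prod_inv_distrib, ← prod_mul_distrib]
  refine prod_congr rfl fun p hp => ?_
  unfold XX
  have : (p : ℝ) ≠ 0 := by exact_mod_cast (hPp p hp).ne_zero
  rw [div_eq_mul_inv (1 - (nuV a p : ℝ) / p)]
  congr 1
  field_simp

end Pool.Agent.J4H69.HL
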